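import Pool.Agent.Q18.OR.StmC

/-!
# Characters over a normal subgroup of prime index
-/

open scoped BigOperators Classical
open Representation Pool.Agent.Helper884.IC

set_option autoImplicit false
set_option linter.unusedSectionVars false

noncomputable section

namespace Pool.Agent.Q177.OR

open Pool.Agent.Y63.AWC
open Pool.Agent.Y564.NV (st_cases orb_t)

theorem card_irr {Y : Type} [Group Y] [Fintype Y] (S : (Y → ℂ) → Prop) [DecidablePred S] :
    Nat.card {χ : Y → ℂ // IsIrrChar χ ∧ S χ} = ((Irr Y).filter S).card := by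
  rw [← Fintype.card_coe, ← Nat.card_eq_fintype_card]
  exact Nat.card_congr (Equiv.subtypeEquivRight fun χ => by rw [Finset.mem_filter, mem_Irr])

/-- a faithful character of a group of prime order -/
theorem exists_lin {C : Type} [Group C] [Finite C] (hC : IsCyclic C) :
    ∃ l : C →* ℂˣ, Function.Injective l := by
  obtain ⟨g, hg⟩ := hC.exists_ofOrder_eq_natCard
  have hN : Nat.card C ≠ 0 := Nat.card_pos.ne'
  have hz := Complex.isPrimitiveRoot_exp (Nat.card C) hN
  set z := (hz.isUnit hN).unit with hzdef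
  have hzo : orderOf z = Nat.card C := (hz.isUnit_unit hN).eq_orderOf.symm
  have hgen : ∀ x : C, x ∈ Subgroup.zpowers g := by
    intro u
    have : Subgroup.zpowers g = ⊤ := by
      apply Subgroup.eq_top_of_card_eq
      rw [Nat.card_zpowers, hg]
    rw [this]; trivial
  refine ⟨monoidHomOfForallMemZpowers hgen (g' := z) (by rw [hzo, hg]), ?_⟩
  rw [injective_iff_map_eq_one]
  intro a ha
  obtain ⟨k, hk⟩ := hgen a
  simp only at hk
  rw [← hk, map_zpow, monoidHomOfForallMemZpowers_apply_gen] at ha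
  rw [← hk]
  have h1 : (orderOf z : ℤ) ∣ k := orderOf_dvd_iff_zpow_eq_one.mpr ha
  rw [hzo, ← hg] at h1
  exact orderOf_dvd_iff_zpow_eq_one.mp h1

/-- the product of an irreducible character with a linear character is irreducible -/
theorem irr_twist {Y : Type} [Group Y] (l : Y →* ℂˣ) {χ : Y → ℂ} (h : IsIrrChar χ) :
    IsIrrChar (fun y => (l y : ℂ) * χ y) := by
  obtain ⟨V, i1, i2, i3, rho, hr, rfl⟩ := h
  let rho' : Representation ℂ Y V :=
    { toFun := fun y => (l y : ℂ) • rho y
      map_one' := by simp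
      map_mul' := fun a b => by
        rw [map_mul, map_mul, Units.val_mul]
        refine LinearMap.ext fun v => ?_
        simp only [LinearMap.smul_apply, Module.End.mul_apply, map_smul, smul_smul]
        rw [mul_comm] }
  have hrho : ∀ y v, rho' y v = (l y : ℂ) • rho y v := fun y v => rfl
  refine ⟨V, i1, i2, i3, rho', ?_, ?_⟩
  · let F : Subrepresentation rho' ≃o Subrepresentation rho :=
      { toFun := fun S => ⟨S.toSubmodule, fun g v hv => by
          have := S.apply_mem_toSubmodule g hv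
          rw [hrho] at this
          have h2 := S.toSubmodule.smul_mem ((l g)⁻¹ : ℂˣ).val this
          rwa [smul_smul, ← Units.val_mul, inv_mul_cancel, Units.val_one, one_smul] at h2⟩
        invFun := fun S => ⟨S.toSubmodule, fun g v hv => by
          rw [hrho]
          exact S.toSubmodule.smul_mem _ (S.apply_mem_toSubmodule g hv)⟩
        left_inv := fun S => rfl
        right_inv := fun S => rfl
        map_rel_iff' := Iff.rfl }
    exact F.isSimpleOrder_iff.mpr hr
  · funext y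
    show (l y : ℂ) * LinearMap.trace ℂ V (rho y) = LinearMap.trace ℂ V (rho' y)
    have : rho' y = (l y : ℂ) • rho y := rfl
    rw [this, map_smul, smul_eq_mul]

variable {X : Type} [Group X] [Fintype X] (M : Subgroup X) [hM : M.Normal]
  {p : ℕ} [hp : Fact p.Prime]

theorem B_van (hr : Nat.card X = p * Nat.card M) {χ : X → ℂ} (hc : IsIrrChar χ)
    (hv : ∀ x, x ∉ M → χ x = 0) : B (res M χ) (res M χ) = p := by
  have h1 : B χ χ = 1 := by rw [B_irr hc hc, if_pos rfl]
  unfold B at h1 ⊢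
  rw [sum_M M (fun g => χ g * χ g⁻¹) (fun g hg => by rw [hv g hg, zero_mul])] at h1
  have h2 : ∑ g : M, res M χ g * res M χ g⁻¹ = ∑ m : M, χ m * χ (m : X)⁻¹ := rfl
  rw [h2]
  have hX : (Nat.card X : ℂ) ≠ 0 := cardG_ne
  have hM0 : (Nat.card M : ℂ) ≠ 0 := cardG_ne
  have h3 : ∑ m : M, χ m * χ (m : X)⁻¹ = (Nat.card X : ℂ) := by
    field_simp at h1
    exact h1
  rw [h3, hr]
  push_cast
  field_simp

theorem Orb_self (θ : M → ℂ) : θ ∈ Orb M θ :=
  Finset.mem_image.mpr ⟨1, Finset.mem_univ _, cj_one M θ⟩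

/-- an invariant constituent: `χ_M = e θ` -/
theorem res_inv {χ : X → ℂ} {θ : M → ℂ} (hc : IsIrrChar χ) (h : IsIrrChar θ)
    (h1 : mult M χ θ ≠ 0) (ho : (Orb M θ).card = 1) :
    res M χ = (mult M χ θ : ℂ) • θ := by
  have h2 := res_eq M hc
  have hO : Orb M θ = {θ} := by
    obtain ⟨a, ha⟩ := Finset.card_eq_one.1 ho
    have := Orb_self M θ
    rw [ha, Finset.mem_singleton] at this
    rw [ha, this]
  rw [h2]
  rw [Finset.sum_eq_single θ]
  · intro t ht hne
    have : mult M χ t = 0 := by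
      by_contra hm
      have h3 : t ∈ (Irr M).filter fun t => mult M χ t ≠ 0 := Finset.mem_filter.2 ⟨ht, hm⟩
      rw [support_eq M hc h h1, hO, Finset.mem_singleton] at h3
      exact hne h3
    rw [this, Nat.cast_zero, zero_smul]
  · intro h3
    exact absurd (mem_Irr.mpr h) h3

theorem not_van (hr : Nat.card X = p * Nat.card M) {χ : X → ℂ} {θ : M → ℂ} (hc : IsIrrChar χ)
    (h : IsIrrChar θ) (h1 : mult M χ θ ≠ 0) (ho : (Orb M θ).card = 1) :
    ¬ ∀ x, x ∉ M → χ x = 0 := by
  intro hv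
  have h2 := B_van M hr hc hv
  rw [res_inv M hc h h1 ho, B_smul_left, B_comm, B_smul_left, B_irr h h, if_pos rfl, mul_one] at h2
  have h3 : mult M χ θ * mult M χ θ = p := by exact_mod_cast h2
  have h4 := hp.out
  rw [← h3] at h4
  exact Nat.not_prime_mul (fun h5 => by rw [h5] at h4; exact Nat.not_prime_one h4)
    (fun h5 => by rw [h5] at h4; exact Nat.not_prime_one h4) h4

theorem mult_one_inv (hr : Nat.card X = p * Nat.card M) {χ : X → ℂ} {θ : M → ℂ}
    (hc : IsIrrChar χ) (h : IsIrrChar θ) (h1 : mult M χ θ ≠ 0) (ho : (Orb M θ).card = 1)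
    (hs : ∑ chi ∈ Irr X, mult M chi θ ^ 2 = p) : mult M χ θ = 1 := by
  have hnv := not_van M hr hc h h1 ho
  push Not at hnv
  obtain ⟨g, hg, hg0⟩ := hnv
  have hcard : Nat.card (X ⧸ M) = p := by
    have := Subgroup.card_eq_card_quotient_mul_card_subgroup M
    rw [hr] at this
    exact (Nat.eq_of_mul_eq_mul_right Nat.card_pos this).symm
  obtain ⟨l, hl⟩ := exists_lin (C := X ⧸ M) (isCyclic_of_prime_card hcard)
  set L : X →* ℂˣ := l.comp (QuotientGroup.mk' M) with hL
  have hLM : ∀ m ∈ M, L m = 1 := by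
    intro m hm
    rw [hL, MonoidHom.comp_apply]
    have : QuotientGroup.mk' M m = 1 := (QuotientGroup.eq_one_iff m).2 hm
    rw [this, map_one]
  have hLg : L g ≠ 1 := by
    intro h3
    have h4 : l (QuotientGroup.mk' M g) = l 1 := by rw [map_one]; exact h3
    exact hg ((QuotientGroup.eq_one_iff g).1 (hl h4))
  have hLp : L g ^ p = 1 := by
    rw [hL, MonoidHom.comp_apply, ← map_pow]
    have : (QuotientGroup.mk' M g) ^ p = 1 := by
      rw [← hcard]
      exact pow_card_eq_one'
    rw [this, map_one]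
  have hord : orderOf (L g) = p := orderOf_eq_prime hLp hLg
  let c : ℕ → X → ℂ := fun i y => ((L ^ i) y : ℂ) * χ y
  have hcirr : ∀ i, IsIrrChar (c i) := fun i => irr_twist (L ^ i) hc
  have hcres : ∀ i, res M (c i) = res M χ := by
    intro i
    funext m
    show ((L ^ i) (m : X) : ℂ) * χ m = χ m
    rw [MonoidHom.pow_apply, hLM m.1 m.2, one_pow, Units.val_one, one_mul]
  have hcm : ∀ i, mult M (c i) θ = mult M χ θ := by
    intro i
    unfold mult
    rw [hcres i]
  have hinj : Set.InjOn c (Finset.range p : Set ℕ) := by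
    intro i hi j hj hij
    have h3 := congrFun hij g
    have h4 : ((L ^ i) g : ℂ) = ((L ^ j) g : ℂ) := mul_right_cancel₀ hg0 h3
    have h5 : L g ^ i = L g ^ j := by
      have := Units.ext h4
      rwa [MonoidHom.pow_apply, MonoidHom.pow_apply] at this
    rw [pow_eq_pow_iff_modEq, hord] at h5
    have hi' : i < p := by simpa using hi
    have hj' : j < p := by simpa using hj
    exact Nat.ModEq.eq_of_lt_of_lt h5 hi' hj'
  have h6 : ∑ chi ∈ (Finset.range p).image c, mult M chi θ ^ 2 ≤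
      ∑ chi ∈ Irr X, mult M chi θ ^ 2 := by
    refine Finset.sum_le_sum_of_subset ?_
    intro x hx
    obtain ⟨i, -, rfl⟩ := Finset.mem_image.1 hx
    exact mem_Irr.2 (hcirr i)
  rw [Finset.sum_image hinj, Finset.sum_congr rfl (fun i _ => by rw [hcm i]), Finset.sum_const,
    Finset.card_range, smul_eq_mul, hs] at h6
  have h7 : mult M χ θ ^ 2 ≤ 1 := by
    by_contra h8
    push Not at h8
    have := hp.out.pos
    nlinarith
  have h8 : mult M χ θ ≤ 1 := by
    by_contra h9
    push Not at h9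
    nlinarith
  omega

theorem count_inv (hr : Nat.card X = p * Nat.card M) {θ : M → ℂ} (h : IsIrrChar θ)
    (ho : (Orb M θ).card = 1) (hs : ∑ chi ∈ Irr X, mult M chi θ ^ 2 = p) :
    ((Irr X).filter fun chi => mult M chi θ ≠ 0).card = p := by
  rw [Finset.card_filter, ← hs]
  refine Finset.sum_congr rfl fun χ hχ => ?_
  by_cases h1 : mult M χ θ = 0
  · simp [h1]
  · rw [mult_one_inv M hr (mem_Irr.1 hχ) h h1 ho hs]
    simp

theorem inv_iff (hr : Nat.card X = p * Nat.card M) {θ : M → ℂ} (h : IsIrrChar θ) :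
    (∀ x : X, cj M x θ = θ) ↔ (Orb M θ).card = 1 := by
  constructor
  · intro h1
    rw [Finset.card_eq_one]
    refine ⟨θ, ?_⟩
    ext t
    rw [Finset.mem_singleton]
    constructor
    · intro ht
      obtain ⟨x, -, rfl⟩ := Finset.mem_image.1 ht
      exact h1 x
    · rintro rfl
      exact Orb_self M t
  · intro h1 x
    obtain ⟨a, ha⟩ := Finset.card_eq_one.1 h1
    have h2 := Orb_self M θ
    have h3 : cj M x θ ∈ Orb M θ := Finset.mem_image.2 ⟨x, Finset.mem_univ _, rfl⟩
    rw [ha, Finset.mem_singleton] at h2 h3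
    rw [h3, h2]

/-- a character over a non-invariant character is induced -/
theorem van_of (hr : Nat.card X = p * Nat.card M) {χ : X → ℂ} {θ : M → ℂ} (hc : IsIrrChar χ)
    (h : IsIrrChar θ) (h1 : mult M χ θ ≠ 0) (hs : ∑ chi ∈ Irr X, mult M chi θ ^ 2 = 1) :
    ∀ x, x ∉ M → χ x = 0 := by
  have h0 : ∀ χ' ∈ Irr X, χ' ≠ χ → mult M χ' θ = 0 := by
    intro χ' hχ' hne
    by_contra h2
    have h3 : ∑ chi ∈ ({χ, χ'} : Finset (X → ℂ)), mult M chi θ ^ 2 ≤
        ∑ chi ∈ Irr X, mult M chi θ ^ 2 := by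
      refine Finset.sum_le_sum_of_subset ?_
      intro x hx
      rw [Finset.mem_insert, Finset.mem_singleton] at hx
      rcases hx with rfl | rfl
      · exact mem_Irr.2 hc
      · exact hχ'
    rw [Finset.sum_pair (Ne.symm hne), hs] at h3
    have h4 : 1 ≤ mult M χ θ ^ 2 := Nat.one_le_iff_ne_zero.2 (pow_ne_zero 2 h1)
    have h5 : 1 ≤ mult M χ' θ ^ 2 := Nat.one_le_iff_ne_zero.2 (pow_ne_zero 2 h2)
    omega
  have h2 := ind_eq M θ h
  rw [Finset.sum_eq_single χ (fun b hb hne => by rw [h0 b hb hne, Nat.cast_zero, zero_smul])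
    (fun h3 => absurd (mem_Irr.2 hc) h3)] at h2
  intro x hx
  have h3 := congrFun h2 x
  have h4 : Pool.Agent.Y63.AWC.ind M θ x = 0 := by
    unfold Pool.Agent.Y63.AWC.ind
    simp [hx]
  rw [h4, Pi.smul_apply, smul_eq_mul] at h3
  rcases mul_eq_zero.1 h3.symm with h5 | h5
  · exact absurd (Nat.cast_eq_zero.1 h5) h1
  · exact h5

end Pool.Agent.Q177.OR

open Pool.Agent.Y63.AWC Pool.Agent.Y564.NV Pool.Agent.Q177.OR in
theorem Pool.Agent.Q177.OR.clp : Pool.Agent.Q18.OR.S_CLP := by
  intro p hp X _ _ M _ hr P Q hPQ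
  rw [card_irr, card_irr, card_irr, card_irr]
  set SP := (Irr X).filter P with hSP
  set S0 := (Irr X).filter (fun χ => P χ ∧ ∀ x, x ∉ M → χ x = 0) with hS0
  set T1 := (Irr M).filter (fun θ => Q θ ∧ ∀ x : X, cj M x θ = θ) with hT1
  set T0 := (Irr M).filter (fun θ => Q θ ∧ ¬ ∀ x : X, cj M x θ = θ) with hT0
  set S1 := (Irr X).filter (fun χ => P χ ∧ ¬ ∀ x, x ∉ M → χ x = 0) with hS1
  have hsplit : SP.card = S0.card + S1.card := by
    rw [hSP, hS0, hS1, ← Finset.filter_filter, ← Finset.filter_filter]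
    exact (Finset.card_filter_add_card_filter_not _).symm
  -- the characters which vanish off `M`
  have hO0 : ∀ (χ : X → ℂ) (θ : M → ℂ), IsIrrChar χ → IsIrrChar θ → mult M χ θ ≠ 0 →
      (∀ x, x ∉ M → χ x = 0) → (Orb M θ).card = p ∧ ¬ ∀ x : X, cj M x θ = θ := by
    intro χ θ hc h h1 hv
    rcases st_cases M hr h with h2 | h2
    · refine ⟨h2.1, fun h3 => ?_⟩
      rw [inv_iff M hr h] at h3
      exact not_van M hr hc h h1 h3 hv
    · exact absurd hv (not_van M hr hc h h1 h2.1)
  have hO1 : ∀ (χ : X → ℂ) (θ : M → ℂ), IsIrrChar χ → IsIrrChar θ → mult M χ θ ≠ 0 →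
      (¬ ∀ x, x ∉ M → χ x = 0) → (Orb M θ).card = 1 := by
    intro χ θ hc h h1 hv
    rcases st_cases M hr h with h2 | h2
    · exact absurd (van_of M hr hc h h1 h2.2.1) hv
    · exact h2.1
  have key0 : p * S0.card = T0.card := by
    have h := Finset.sum_card_bipartiteAbove_eq_sum_card_bipartiteBelow
      (s := S0) (t := T0) (fun χ θ => mult M χ θ ≠ 0)
    have h1 : ∀ χ ∈ S0, (Finset.bipartiteAbove (fun χ θ => mult M χ θ ≠ 0) T0 χ).card = p := by
      intro χ hχ
      obtain ⟨hc, hPχ, hv⟩ := Finset.mem_filter.mp hχ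
      have hc := mem_Irr.mp hc
      obtain ⟨θ, ht, hm⟩ := mult_exists M hc
      rw [← (hO0 χ θ hc ht hm hv).1, ← support_eq M hc ht hm]
      congr 1
      ext t
      simp only [Finset.bipartiteAbove, Finset.mem_filter, hT0]
      constructor
      · rintro ⟨⟨h3, -⟩, h4⟩
        exact ⟨h3, h4⟩
      · rintro ⟨h3, h4⟩
        have h3' := mem_Irr.mp h3
        exact ⟨⟨h3, (hPQ χ t hc h3' h4).1 hPχ, (hO0 χ t hc h3' h4 hv).2⟩, h4⟩
    have h2 : ∀ θ ∈ T0, (Finset.bipartiteBelow (fun χ θ => mult M χ θ ≠ 0) S0 θ).card = 1 := by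
      intro θ hθ
      obtain ⟨ht, hQ, hni⟩ := Finset.mem_filter.mp hθ
      have ht := mem_Irr.mp ht
      rw [inv_iff M hr ht] at hni
      have hst : (∑ chi ∈ Irr X, mult M chi θ ^ 2) = 1 ∧ Nat.card (St M θ) = Nat.card M := by
        rcases st_cases M hr ht with h2 | h2
        · exact h2.2
        · exact absurd h2.1 hni
      rw [← (unique_over M ht hst.2).1]
      congr 1
      ext χ
      simp only [Finset.bipartiteBelow, Finset.mem_filter, hS0]
      constructor
      · rintro ⟨⟨h5, -⟩, h6⟩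
        exact ⟨h5, h6⟩
      · rintro ⟨h5, h6⟩
        have h5' := mem_Irr.mp h5
        exact ⟨⟨h5, (hPQ χ θ h5' ht h6).2 hQ, van_of M hr h5' ht h6 hst.1⟩, h6⟩
    rw [Finset.sum_congr rfl h1, Finset.sum_congr rfl h2, Finset.sum_const, Finset.sum_const,
      smul_eq_mul, smul_eq_mul, mul_one] at h
    rw [← h, mul_comm]
  have key1 : S1.card = p * T1.card := by
    have h := Finset.sum_card_bipartiteAbove_eq_sum_card_bipartiteBelow
      (s := S1) (t := T1) (fun χ θ => mult M χ θ ≠ 0)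
    have h1 : ∀ χ ∈ S1, (Finset.bipartiteAbove (fun χ θ => mult M χ θ ≠ 0) T1 χ).card = 1 := by
      intro χ hχ
      obtain ⟨hc, hPχ, hv⟩ := Finset.mem_filter.mp hχ
      have hc := mem_Irr.mp hc
      obtain ⟨θ, ht, hm⟩ := mult_exists M hc
      rw [← hO1 χ θ hc ht hm hv, ← support_eq M hc ht hm]
      congr 1
      ext t
      simp only [Finset.bipartiteAbove, Finset.mem_filter, hT1]
      constructor
      · rintro ⟨⟨h3, -⟩, h4⟩
        exact ⟨h3, h4⟩
      · rintro ⟨h3, h4⟩
        have h3' := mem_Irr.mp h3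
        exact ⟨⟨h3, (hPQ χ t hc h3' h4).1 hPχ, (inv_iff M hr h3').2 (hO1 χ t hc h3' h4 hv)⟩, h4⟩
    have h2 : ∀ θ ∈ T1, (Finset.bipartiteBelow (fun χ θ => mult M χ θ ≠ 0) S1 θ).card = p := by
      intro θ hθ
      obtain ⟨ht, hQ, hni⟩ := Finset.mem_filter.mp hθ
      have ht := mem_Irr.mp ht
      rw [inv_iff M hr ht] at hni
      have hs : (∑ chi ∈ Irr X, mult M chi θ ^ 2) = p := by
        have := orb_t M hr ht
        rwa [hni, one_mul] at this
      conv_rhs => rw [← count_inv M hr ht hni hs]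
      congr 1
      ext χ
      simp only [Finset.bipartiteBelow, Finset.mem_filter, hS1]
      constructor
      · rintro ⟨⟨h5, -⟩, h6⟩
        exact ⟨h5, h6⟩
      · rintro ⟨h5, h6⟩
        have h5' := mem_Irr.mp h5
        exact ⟨⟨h5, (hPQ χ θ h5' ht h6).2 hQ, not_van M hr h5' ht h6 hni⟩, h6⟩
    rw [Finset.sum_congr rfl h1, Finset.sum_congr rfl h2, Finset.sum_const, Finset.sum_const,
      smul_eq_mul, smul_eq_mul, mul_one] at h
    rw [h, mul_comm]
  exact ⟨by rw [hsplit, key1], key0⟩
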